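import Pool.Agent.Y546.WQ.Stm2
import Pool.Agent.Y546.WQ.Wie

/-!
# The norm of `x + z y` is prime to two (S_COP), project WG of helper546
-/

set_option autoImplicit false

namespace Pool.Agent.Y67.WQ

open NumberField IsDedekindDomain Polynomial Pool.Agent.Y546.WQ

/-- a quotient with two elements -/
theorem two_el {R : Type} [CommRing R] (P : Ideal R) (h : Nat.card (R ⧸ P) = 2) (u : R) :
    u ∈ P ∨ u - 1 ∈ P := by
  by_cases hu : u ∈ P
  · exact Or.inl hu
  · right
    obtain ⟨y, hy, huniq⟩ := (Nat.card_eq_two_iff' (0 : R ⧸ P)).mp h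
    have hy0 : y ≠ 0 := hy
    have h1 : (Ideal.Quotient.mk P u) = y := huniq _ (by
      intro h0
      exact hu (Ideal.Quotient.eq_zero_iff_mem.mp h0))
    have h2 : (1 : R ⧸ P) = y := huniq _ (by
      intro h0
      apply hy0
      have : y = y * 1 := (mul_one y).symm
      rw [this, h0, mul_zero])
    rw [← Ideal.Quotient.eq_zero_iff_mem, map_sub, map_one, h1, ← h2, sub_self]

theorem exists_over {E N : Type} [Field E] [NumberField E] [Field N] [NumberField N]
    (j : 𝓞 E →+* 𝓞 N) (hj : Function.Injective j) (P : Ideal (𝓞 E)) [P.IsPrime] :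
    ∃ Q : Ideal (𝓞 N), Q.IsPrime ∧ Q.comap j = P := by
  letI : Algebra (𝓞 E) (𝓞 N) := j.toAlgebra
  haveI : IsScalarTower ℤ (𝓞 E) (𝓞 N) := IsScalarTower.of_algebraMap_eq' (by
    apply RingHom.ext_int)
  haveI : Algebra.IsIntegral (𝓞 E) (𝓞 N) := ⟨fun x =>
    IsIntegral.tower_top (R := ℤ) (RingOfIntegers.isIntegral x)⟩
  obtain ⟨Q, hQ1, hQ2⟩ := Ideal.exists_ideal_over_prime_of_isIntegral_of_isDomain (S := 𝓞 N) P (by
    intro x hx
    have h1 : j x = 0 := hx
    have h2 : x = 0 := hj (by rw [h1, map_zero])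
    rw [h2]
    exact P.zero_mem)
  exact ⟨Q, hQ1, hQ2⟩

/-- **WG-COP.** -/
theorem mainCOP : S_COP := by
  classical
  intro p _ hp2 E _ _ c K N _ _ _ _ i _ hK x y z hxyz f hf P hP hP2 w hw hwP
  haveI := hP
  have hpp : p.Prime := Fact.out
  set j : 𝓞 E →+* 𝓞 N := RingOfIntegers.mapRingHom i with hj
  have hjinj : Function.Injective j := by
    intro a b hab
    have h1 : ((j a : 𝓞 N) : N) = j b := congrArg _ hab
    rw [hj, RingOfIntegers.mapRingHom_apply, RingOfIntegers.mapRingHom_apply] at h1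
    exact RingOfIntegers.ext (i.injective h1)
  obtain ⟨Q, hQ, hQP⟩ := exists_over j hjinj P
  haveI := hQ
  have hmem : ∀ a : 𝓞 E, a ∈ P → j a ∈ Q := by
    intro a ha
    rw [← hQP] at ha
    exact ha
  obtain ⟨u, hu, hup⟩ := exists_zint c
  have hzp : IsPrimitiveRoot (j u) p := hup.map_of_injective hjinj
  set v : 𝓞 N := j u with hv
  have h2Q : (2 : 𝓞 N) ∈ Q := by
    have := hmem 2 hP2
    rwa [map_ofNat] at this
  have hvQ : v ∉ Q := by
    intro h
    apply one_notMem Q hQ
    rw [← hzp.pow_eq_one]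
    exact Q.pow_mem_of_mem h p hpp.pos
  -- the value
  have hw' : w = aeval u f := by
    apply RingOfIntegers.ext
    rw [hw, ← hu]
    exact (Polynomial.aeval_algebraMap_apply E u f)
  have hjw : j w = ∏ τ : K →+* N, (RingOfIntegers.mapRingHom τ x +
      v * RingOfIntegers.mapRingHom τ y) := by
    have h1 : j w = (f.map (Int.castRingHom (𝓞 N))).eval v := by
      rw [hw', Polynomial.aeval_def, Polynomial.hom_eval₂, Polynomial.eval_map,
        RingHom.ext_int (j.comp (algebraMap ℤ (𝓞 E))) (Int.castRingHom (𝓞 N))]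
    rw [h1, hf, nrmP, Polynomial.eval_prod]
    refine Finset.prod_congr rfl fun τ _ => ?_
    rw [Polynomial.eval_add, Polynomial.eval_C, Polynomial.eval_mul, Polynomial.eval_X,
      Polynomial.eval_C]
  have hprod := hmem w hwP
  rw [hjw, hQ.prod_mem_iff] at hprod
  obtain ⟨τ, -, hτ⟩ := hprod
  set T : 𝓞 K →+* 𝓞 N := RingOfIntegers.mapRingHom τ with hT
  haveI hPτ : (Q.comap T).IsPrime := Ideal.comap_isPrime T Q
  have h2τ : (2 : 𝓞 K) ∈ Q.comap T := by
    rw [Ideal.mem_comap, map_ofNat]
    exact h2Q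
  have hcard := hK (Q.comap T) hPτ h2τ
  obtain ⟨hsum, hnot⟩ := hxyz (Q.comap T) hPτ h2τ
  rcases two_el _ hcard x with hx | hx
  · -- `y` and `z` are in the ideal
    have h1 : v * T y ∈ Q := by
      have := Q.sub_mem hτ (show T x ∈ Q from hx)
      rwa [add_sub_cancel_left] at this
    have hy : y ∈ Q.comap T := (hQ.mem_or_mem h1).resolve_left hvQ
    apply hnot
    refine ⟨hx, hy, ?_⟩
    have h2 := (Q.comap T).sub_mem ((Q.comap T).sub_mem hsum hx) hy
    have h3 : x + y + z - x - y = z := by ring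
    rwa [h3] at h2
  · rcases two_el _ hcard y with hy | hy
    · have h1 : T x ∈ Q := by
        have := Q.sub_mem hτ (Q.mul_mem_left v (show T y ∈ Q from hy))
        rwa [add_sub_cancel_right] at this
      have h2 : T x - 1 ∈ Q := by
        have := hx
        rw [Ideal.mem_comap, map_sub, map_one] at this
        exact this
      have h3 := Q.sub_mem h1 h2
      rw [sub_sub_cancel] at h3
      exact one_notMem Q hQ h3
    · have h1 : T x - 1 ∈ Q := by
        have := hx
        rw [Ideal.mem_comap, map_sub, map_one] at this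
        exact this
      have h2 : T y - 1 ∈ Q := by
        have := hy
        rw [Ideal.mem_comap, map_sub, map_one] at this
        exact this
      have h3 : 1 - v ∈ Q := by
        have h4 : 1 - v = (T x + v * T y) - (T x - 1) - v * (T y - 1) - v * 2 := by ring
        rw [h4]
        exact Q.sub_mem (Q.sub_mem (Q.sub_mem hτ h1) (Q.mul_mem_left _ h2)) (Q.mul_mem_left _ h2Q)
      have h5 := p_mem_of_one_sub_mem v hzp Q h3
      have h6 := int_notMem Q hQ 2 Nat.prime_two (by exact_mod_cast h2Q) (p : ℤ) (by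
        intro h
        have h9 : 2 ∣ p := by exact_mod_cast h
        exact hp2 ((Nat.prime_dvd_prime_iff_eq Nat.prime_two hpp).1 h9).symm)
      exact h6 (by exact_mod_cast h5)

end Pool.Agent.Y67.WQ
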